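import Pool.Agent.H93.ES.Targets
import Pool.Agent.H81.DE.SUM

/-!
# MP_c59857_nt, row LVD: the decrement between two octaves
-/

set_option autoImplicit false

open Finset Pool.Agent.H18.MR Pool.Agent.H93.DE Pool.Agent.H6.N4D Pool.Agent.H93
  Pool.Agent.H93.ES

namespace Pool.Agent.H37.ES

theorem pf_LVD (hD : T_DCR) : T_LVD := by
  intro γ _ _ N a b _ x hab hN
  have key : ∀ m, m < b →
      info x (2 ^ m) (primorial (2 ^ m)) (pr m) / 2 ^ m ≤
        hc x (2 ^ m) (primorial (2 ^ m)) / 2 ^ m -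
          hc x (2 ^ (m + 1)) (primorial (2 ^ (m + 1))) / 2 ^ (m + 1) := by
    intro m hm
    have h1 : primorial (2 ^ m) * pr m ∣ N := by
      rw [← H81.DE.prim_succ]
      exact (H81.DE.prim_dvd (Nat.pow_le_pow_right (by norm_num) hm)).trans hN
    have h2 := hD γ N (primorial (2 ^ m)) (pr m) (2 ^ m) x (primorial_pos _) (H81.DE.pr_pos m)
      (H81.DE.prim_coprime m) h1
    have h3 : 2 * (2 ^ m) = 2 ^ (m + 1) := by ring
    rw [h3, ← H81.DE.prim_succ] at h2
    have h4 : (2 : ℝ) ^ (m + 1) = 2 * 2 ^ m := by ring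
    have h5 : (0 : ℝ) < 2 ^ m := by positivity
    rw [h4, le_sub_iff_add_le, ← sub_nonneg]
    have h6 : hc x (2 ^ m) (primorial (2 ^ m)) / 2 ^ m -
        (info x (2 ^ m) (primorial (2 ^ m)) (pr m) / 2 ^ m +
          hc x (2 ^ (m + 1)) (primorial (2 ^ (m + 1))) / (2 * 2 ^ m)) =
        (2 * (hc x (2 ^ m) (primorial (2 ^ m)) -
          info x (2 ^ m) (primorial (2 ^ m)) (pr m)) -
          hc x (2 ^ (m + 1)) (primorial (2 ^ (m + 1)))) / (2 * 2 ^ m) := by
      field_simp
      ring
    rw [h6]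
    exact div_nonneg (by linarith) (by positivity)
  have tel : ∀ c, a ≤ c → c ≤ b →
      ∑ m ∈ Ico a c, info x (2 ^ m) (primorial (2 ^ m)) (pr m) / 2 ^ m ≤
        hc x (2 ^ a) (primorial (2 ^ a)) / 2 ^ a -
          hc x (2 ^ c) (primorial (2 ^ c)) / 2 ^ c := by
    intro c hac
    induction c, hac using Nat.le_induction with
    | base =>
      intro _
      simp
    | succ c hac ih =>
      intro hcb
      rw [Finset.sum_Ico_succ_top hac]
      have := ih (by omega)
      have := key c (by omega)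
      linarith
  exact tel b hab le_rfl

end Pool.Agent.H37.ES
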