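import Pool.Agent.H31.ES.STP

/-!
# Row CVP (MP_e21eee_nt): the points covered by rich stars
-/

set_option autoImplicit false

open Finset MeasureTheory

namespace Pool.Agent.H37.ES

open Pool.Agent.H24.CL Pool.Agent.H24.LV Pool.Agent.H56.LVP Pool.Agent.H26.ES Pool.Agent.H31.ES

open Classical in
/-- row CVP -/
theorem pf_CVP (hSC : L_SC) (hCO : L_CO) : T_CVP := by
  intro k S V Ge Gd P m τ Ω κ hd0
  have hk := hd0.hk
  have hS : ∀ p ∈ S, p.Prime := fun p hp => (hd0.pr p hp).1
  have hD := DS_pos hS
  have hDr : (0 : ℝ) < DS S := by exact_mod_cast hD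
  have hD0 : (0 : ℝ) < (DS S : ℝ) ^ k := by positivity
  set Wc : Set (X k) := {w : X k | ∃ (b : X k) (x : ℕ), x < DS S ∧ phi (DS S) x b = w ∧
    Rich S V κ b x} with hWc
  set T := toMeasurable (volume : Measure (X k)) Wc with hT
  have hTm : MeasurableSet T := measurableSet_toMeasurable _ _
  have hTv : volume.real T = volume.real Wc := by
    rw [Measure.real, Measure.real, hT, measure_toMeasurable]
  have key : ∀ x ∈ range (DS S), (DS S : ℝ) ^ (KN k - k) *
      volume.real {b : X k | StarP S V Gd b x ∧ Rich S V κ b x} ≤ volume.real Wc := by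
    intro x hx
    have hxD : x < DS S := Finset.mem_range.1 hx
    have hxp : ∀ p ∈ S, x / (DS S / p) < p := by
      intro p hp
      refine Nat.div_lt_of_lt_mul ?_
      rw [mul_comm, (DS_div hS hp).1]
      exact hxD
    set Gx : ℕ → Set (X k) := fun p => Gd p (x / (DS S / p)) with hGx
    obtain ⟨t, htm, htw, hti⟩ := hSC k (DS S) x hD
    obtain ⟨-, hker⟩ := hCO.2.2.2.1 k (DS S) x hD
    -- the measurable superset
    set A : Set (X k) := {b : X k | Pool.Agent.H24.LV.Star S Set.univ Gx b x} ∩
      (phi (DS S) x) ⁻¹' T with hA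
    have hAm : MeasurableSet A :=
      (Star_meas hS MeasurableSet.univ (fun p hp => hd0.mG p hp _) x).inter (phi_meas _ _ hD hTm)
    have hsub : {b : X k | StarP S V Gd b x ∧ Rich S V κ b x} ⊆ A := by
      intro b hb
      refine ⟨⟨trivial, hb.1.2⟩, ?_⟩
      refine subset_toMeasurable _ _ ?_
      exact ⟨b, x, hxD, rfl, hb.2⟩
    have h0 : volume.real {b : X k | StarP S V Gd b x ∧ Rich S V κ b x} ≤ volume.real A :=
      measureReal_mono hsub (measure_ne_top _ _)
    have h1 := hti (A.indicator fun _ => 1) 1 (measurable_const.indicator hAm) (by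
        intro a
        by_cases ha : a ∈ A
        · rw [Set.indicator_of_mem ha, abs_one]
        · rw [Set.indicator_of_notMem ha, abs_zero]
          norm_num)
    rw [integral_indicator hAm, setIntegral_const, smul_eq_mul, mul_one, pow_KN hk] at h1
    have h2 : ∀ w, ∑ κ ∈ Kr k (DS S) x, (A.indicator (fun _ => (1 : ℝ))) (t w + κ) ≤
        T.indicator (fun _ => (DS S : ℝ) ^ k) w := by
      intro w
      by_cases hw : w ∈ T
      · rw [Set.indicator_of_mem hw]
        have h3 : ∀ κ ∈ Kr k (DS S) x, (A.indicator (fun _ => (1 : ℝ))) (t w + κ) ≤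
            if (∀ p ∈ S, phi (DS S / p) (x % (DS S / p)) (t w + κ) ∈ Gx p) then 1 else 0 := by
          intro κ hκ
          by_cases hall : ∀ p ∈ S, phi (DS S / p) (x % (DS S / p)) (t w + κ) ∈ Gx p
          · rw [if_pos hall]
            exact Set.indicator_le' (fun _ _ => le_rfl) (fun _ _ => zero_le_one) _
          · rw [if_neg hall, Set.indicator_of_notMem]
            intro h
            exact hall h.1.2
        refine (Finset.sum_le_sum h3).trans ?_
        rw [star_count hCO hS]
        have h5 : ∏ p ∈ S, nn k p (x / (DS S / p)) (Gx p) (phi (DS S / p) (x % (DS S / p)) (t w)) ≤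
            ∏ p ∈ S, (p : ℝ) ^ k := by
          refine Finset.prod_le_prod (fun p _ => nn_nonneg) fun p hp => ?_
          exact nn_le_uni (hS p hp).one_le hCO (hxp p hp) (hd0.uni p hp) _
        refine h5.trans (le_of_eq ?_)
        rw [Finset.prod_pow, DS]
        push_cast
        rfl
      · rw [Set.indicator_of_notMem hw]
        refine le_of_eq (Finset.sum_eq_zero fun κ hκ => ?_)
        rw [Set.indicator_of_notMem]
        intro h
        apply hw
        have h4 : phi (DS S) x (t w + κ) = w := by
          rw [map_add, htw, (hker κ).1 hκ, add_zero]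
        rw [← h4]
        exact h.2
    have h3 : ∫ w, ∑ κ ∈ Kr k (DS S) x, (A.indicator (fun _ => (1 : ℝ))) (t w + κ) ≤
        ∫ w, T.indicator (fun _ => (DS S : ℝ) ^ k) w := by
      refine integral_mono_of_nonneg ?_ ?_ (Filter.Eventually.of_forall h2)
      · refine Filter.Eventually.of_forall fun w => ?_
        exact Finset.sum_nonneg fun κ _ => Set.indicator_nonneg (fun _ _ => zero_le_one) _
      · exact (integrable_const _).indicator hTm
    rw [← h1, integral_indicator hTm, setIntegral_const, smul_eq_mul, hTv] at h3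
    have h4 : (DS S : ℝ) ^ (KN k - k) * volume.real A ≤ volume.real Wc := by
      refine le_of_mul_le_mul_left ?_ hD0
      calc _ = (DS S : ℝ) ^ k * (DS S : ℝ) ^ (KN k - k) * volume.real A := by ring
        _ ≤ _ := h3
        _ = _ := by ring
    refine le_trans ?_ h4
    exact mul_le_mul_of_nonneg_left h0 (by positivity)
  unfold mass
  have e1 : (DS S : ℝ) ^ (KN k - k) * ((1 / (DS S : ℝ)) * ∑ x ∈ range (DS S),
      volume.real {b : X k | StarP S V Gd b x ∧ Rich S V κ b x}) =
      (1 / (DS S : ℝ)) * ∑ x ∈ range (DS S), (DS S : ℝ) ^ (KN k - k) *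
        volume.real {b : X k | StarP S V Gd b x ∧ Rich S V κ b x} := by
    rw [← Finset.mul_sum]
    ring
  rw [e1]
  have e2 := Finset.sum_le_sum key
  rw [Finset.sum_const, Finset.card_range, nsmul_eq_mul] at e2
  have e3 : (0 : ℝ) ≤ 1 / (DS S : ℝ) := by positivity
  refine (mul_le_mul_of_nonneg_left e2 e3).trans (le_of_eq ?_)
  field_simp

end Pool.Agent.H37.ES
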