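import Pool.Agent.H26.ES.Targets
import Pool.Agent.H24.CL.Base

/-!
# Row NWT (MP_e21eee_nt): few alive points in a coset (Newton)
-/

set_option autoImplicit false

open Finset MeasureTheory

namespace Pool.Agent.H37.ES

open Pool.Agent.H24.CL Pool.Agent.H24.LV Pool.Agent.H26.ES
open Pool.Agent.H72.CLV (Sd sum_HF good_perm)

/-- Newton's inequality with the sum of the squares -/
theorem nwt_w (k q : ℕ) (hq : q.Prime) (hk : k < q) (x : ℕ → ℂ) :
    ∑ h ∈ HF k q 1, ‖∑ b ∈ range q, x b * e (P h b)‖ ^ (2 * k) ≤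
      (q : ℝ) ^ k * (Nat.factorial k : ℝ) * (∑ b ∈ range q, ‖x b‖ ^ 2) ^ k := by
  classical
  have hq1 : 1 ≤ q := hq.one_lt.le
  set D : Finset ℕ := range q with hD
  set PD : Finset (Fin k → ℕ) := Fintype.piFinset fun _ => D with hPD
  have hpow : ∀ h : X k, (∑ b ∈ D, x b * e (P h b)) ^ k =
      ∑ p ∈ PD, (∏ i, x (p i)) * ∏ i, e (P h (p i)) := by
    intro h
    have h1 := Finset.prod_univ_sum (fun _ : Fin k => D) (fun _ b => x b * e (P h b))
    rw [Finset.prod_const, Finset.card_univ, Fintype.card_fin] at h1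
    rw [h1]
    refine Finset.sum_congr rfl fun p _ => ?_
    rw [Finset.prod_mul_distrib]
  have hexp : ∀ h : X k, (((‖∑ b ∈ D, x b * e (P h b)‖ ^ (2 * k) : ℝ)) : ℂ) =
      ∑ p ∈ PD, ∑ p' ∈ PD, ((∏ i, x (p i)) * (starRingEnd ℂ) (∏ i, x (p' i))) *
        ((∏ i, e (P h (p i))) * (starRingEnd ℂ) (∏ i, e (P h (p' i)))) := by
    intro h
    have h1 : (((‖∑ b ∈ D, x b * e (P h b)‖ ^ (2 * k) : ℝ)) : ℂ) =
        (∑ b ∈ D, x b * e (P h b)) ^ k * (starRingEnd ℂ) ((∑ b ∈ D, x b * e (P h b)) ^ k) := by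
      rw [Complex.mul_conj, Complex.normSq_eq_norm_sq, norm_pow, ← pow_mul, mul_comm k 2]
    rw [h1, hpow, map_sum, Finset.sum_mul_sum]
    refine Finset.sum_congr rfl fun p _ => Finset.sum_congr rfl fun p' _ => ?_
    rw [map_mul]
    ring
  have hsum : (((∑ h ∈ HF k q 1, ‖∑ b ∈ D, x b * e (P h b)‖ ^ (2 * k) : ℝ)) : ℂ) =
      ∑ p ∈ PD, ∑ p' ∈ PD, ((∏ i, x (p i)) * (starRingEnd ℂ) (∏ i, x (p' i))) *
        (if (∀ j, (q : ℤ) ∣ Sd p p' j) then (q : ℂ) ^ k else 0) := by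
    rw [Complex.ofReal_sum, Finset.sum_congr rfl fun h _ => hexp h, Finset.sum_comm]
    refine Finset.sum_congr rfl fun p _ => ?_
    rw [Finset.sum_comm]
    refine Finset.sum_congr rfl fun p' _ => ?_
    rw [← Finset.mul_sum, sum_HF rEX rTO k q hq1 p p']
  have hnn : (0 : ℝ) ≤ ∑ h ∈ HF k q 1, ‖∑ b ∈ D, x b * e (P h b)‖ ^ (2 * k) :=
    Finset.sum_nonneg fun h _ => by positivity
  have hnorm : ∑ h ∈ HF k q 1, ‖∑ b ∈ D, x b * e (P h b)‖ ^ (2 * k) =
      ‖(((∑ h ∈ HF k q 1, ‖∑ b ∈ D, x b * e (P h b)‖ ^ (2 * k) : ℝ)) : ℂ)‖ := by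
    rw [Complex.norm_real, Real.norm_of_nonneg hnn]
  rw [hnorm, hsum]
  calc ‖∑ p ∈ PD, ∑ p' ∈ PD, ((∏ i, x (p i)) * (starRingEnd ℂ) (∏ i, x (p' i))) *
        (if (∀ j, (q : ℤ) ∣ Sd p p' j) then (q : ℂ) ^ k else 0)‖
      ≤ ∑ p ∈ PD, ∑ p' ∈ PD, ‖((∏ i, x (p i)) * (starRingEnd ℂ) (∏ i, x (p' i))) *
        (if (∀ j, (q : ℤ) ∣ Sd p p' j) then (q : ℂ) ^ k else 0)‖ :=
        (norm_sum_le _ _).trans (Finset.sum_le_sum fun p _ => norm_sum_le _ _)
    _ ≤ ∑ p ∈ PD, ∑ p' ∈ PD, (if (∀ j, (q : ℤ) ∣ Sd p p' j) then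
          (∏ i, ‖x (p i)‖ ^ 2) * (q : ℝ) ^ k else 0) := by
        refine Finset.sum_le_sum fun p hp => Finset.sum_le_sum fun p' hp' => ?_
        split_ifs with h
        · rw [hPD, Fintype.mem_piFinset] at hp hp'
          obtain ⟨σ, hσ⟩ := good_perm k q hq hk p p' (fun i => Finset.mem_range.1 (hp i))
            (fun i => Finset.mem_range.1 (hp' i)) h
          rw [norm_mul, norm_mul, RCLike.norm_conj, norm_pow, Complex.norm_natCast, norm_prod,
            norm_prod]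
          have h1 : ∏ i, ‖x (p' i)‖ = ∏ i, ‖x (p i)‖ := by
            rw [hσ]
            exact Equiv.prod_comp σ fun i => ‖x (p i)‖
          rw [h1, ← Finset.prod_mul_distrib]
          refine le_of_eq ?_
          congr 1
          exact Finset.prod_congr rfl fun i _ => by rw [sq]
        · simp
    _ ≤ ∑ p ∈ PD, (Nat.factorial k : ℝ) * ((∏ i, ‖x (p i)‖ ^ 2) * (q : ℝ) ^ k) := by
        refine Finset.sum_le_sum fun p hp => ?_
        rw [← Finset.sum_filter, Finset.sum_const, nsmul_eq_mul]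
        have hc : (PD.filter fun p' => ∀ j, (q : ℤ) ∣ Sd p p' j).card ≤ Nat.factorial k := by
          have hsub : (PD.filter fun p' => ∀ j, (q : ℤ) ∣ Sd p p' j) ⊆
              (univ : Finset (Equiv.Perm (Fin k))).image
                (fun σ : Equiv.Perm (Fin k) => (fun i => p (σ i) : Fin k → ℕ)) := by
            intro p' hp'
            rw [Finset.mem_filter] at hp'
            have hp1 := hp
            rw [hPD, Fintype.mem_piFinset] at hp1
            have hp2 := hp'.1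
            rw [hPD, Fintype.mem_piFinset] at hp2
            obtain ⟨σ, hσ⟩ := good_perm k q hq hk p p' (fun i => Finset.mem_range.1 (hp1 i))
              (fun i => Finset.mem_range.1 (hp2 i)) hp'.2
            exact Finset.mem_image.2 ⟨σ, Finset.mem_univ _, hσ.symm⟩
          refine (Finset.card_le_card hsub).trans (Finset.card_image_le.trans ?_)
          rw [Finset.card_univ, Fintype.card_perm, Fintype.card_fin]
        have h0 : (0 : ℝ) ≤ (∏ i, ‖x (p i)‖ ^ 2) * (q : ℝ) ^ k :=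
          mul_nonneg (Finset.prod_nonneg fun _ _ => by positivity) (by positivity)
        exact mul_le_mul_of_nonneg_right (by exact_mod_cast hc) h0
    _ = (q : ℝ) ^ k * (Nat.factorial k : ℝ) * (∑ b ∈ D, ‖x b‖ ^ 2) ^ k := by
        have h1 := Finset.prod_univ_sum (fun _ : Fin k => D) (fun _ b => ‖x b‖ ^ 2)
        rw [Finset.prod_const, Finset.card_univ, Fintype.card_fin] at h1
        rw [h1, ← Finset.mul_sum, ← Finset.sum_mul]
        ring

/-- row NWT -/
theorem pf_NWT : T_NWT := by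
  classical
  intro k q N t a Y hk1 hq hk hN ht hY
  have hq1 : 1 ≤ q := hq.one_lt.le
  have hq0 : (0 : ℝ) < q := by exact_mod_cast hq.pos
  obtain ⟨hTO1, hTO2, -, -, -, hTO6⟩ := rTO k q hq1
  set x : ℕ → ℂ := fun b => e (P a b) * u N (phi q b a) with hx
  have hadd := rEX.2.1
  have hPadd := rEX.2.2.2.2.2.2.1
  have hnorm := rEX.1
  have h1 : ∀ h ∈ HF k q 1, ‖u (q * N) (a + h)‖ =
      (1 / (q : ℝ)) * ‖∑ b ∈ range q, x b * e (P h b)‖ := by
    intro h hh
    rw [rPF.2 k q N hq1 hN (a + h), norm_mul]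
    congr 1
    · rw [norm_div, norm_one, Complex.norm_natCast]
    · congr 1
      refine Finset.sum_congr rfl fun b _ => ?_
      rw [hPadd, hadd, map_add, hTO6 b h ((hTO2 1 h).1 hh), add_zero, hx]
      ring
  have h2 : ∑ b ∈ range q, ‖x b‖ ^ 2 = q * VD q N a := by
    unfold VD
    rw [← mul_assoc, mul_one_div_cancel hq0.ne', one_mul]
    refine Finset.sum_congr rfl fun b _ => ?_
    rw [hx]
    simp only
    rw [norm_mul, hnorm, one_mul]
  have h3 := nwt_w k q hq hk x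
  rw [h2] at h3
  have h4 : ∑ h ∈ HF k q 1, ‖u (q * N) (a + h)‖ ^ (2 * k) ≤
      (Nat.factorial k : ℝ) * VD q N a ^ k := by
    have h5 : ∑ h ∈ HF k q 1, ‖u (q * N) (a + h)‖ ^ (2 * k) =
        (1 / (q : ℝ)) ^ (2 * k) *
          ∑ h ∈ HF k q 1, ‖∑ b ∈ range q, x b * e (P h b)‖ ^ (2 * k) := by
      rw [Finset.mul_sum]
      refine Finset.sum_congr rfl fun h hh => ?_
      rw [h1 h hh, mul_pow]
    rw [h5]
    refine (mul_le_mul_of_nonneg_left h3 (by positivity)).trans (le_of_eq ?_)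
    rw [mul_pow, two_mul, pow_add, one_div, inv_pow]
    have : ((q : ℝ) ^ k) ≠ 0 := by positivity
    field_simp
  have h5 : (Y.card : ℝ) * t ^ (2 * k) ≤ (Nat.factorial k : ℝ) * VD q N a ^ k := by
    refine le_trans ?_ h4
    have h6 : ∑ y ∈ Y, t ^ (2 * k) ≤ ∑ h ∈ Y.image (fun y => y - a),
        ‖u (q * N) (a + h)‖ ^ (2 * k) := by
      rw [Finset.sum_image fun y _ y' _ h => sub_left_injective h]
      refine Finset.sum_le_sum fun y hy => ?_
      rw [add_sub_cancel]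
      exact pow_le_pow_left₀ ht.le (hY y hy).2 _
    rw [Finset.sum_const, nsmul_eq_mul] at h6
    refine h6.trans (Finset.sum_le_sum_of_subset_of_nonneg ?_ fun _ _ _ => by positivity)
    intro h hh
    obtain ⟨y, hy, rfl⟩ := Finset.mem_image.1 hh
    exact (hTO2 1 _).2 (hY y hy).1
  rw [div_pow, ← pow_mul, ← mul_div_assoc, le_div_iff₀ (by positivity)]
  exact h5

end Pool.Agent.H37.ES
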